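import Pool.Agent.Helper15.AB.GoalsD

/-! Packet AVB of project AB (helper15, helper24), proved by helper46. -/

open MeasureTheory Set Filter Topology
open scoped ContDiff

noncomputable section

namespace Pool.Agent.Helper46.AB

open Pool.Agent.Helper15.AB

theorem cont1 {F : ℝ → ℝ → ℝ → ℝ} (hF : Cont3 F) (x y : ℝ) : Continuous (fun u => F x y u) := by
  have h : Continuous (fun u : ℝ => ((x, y, u) : ℝ × ℝ × ℝ)) := by fun_prop
  exact (show Continuous fun v : ℝ × ℝ × ℝ => F v.1 v.2.1 v.2.2 from hF).comp h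

theorem cont2 {F : ℝ → ℝ → ℝ → ℝ} (hF : Cont3 F) (a b : ℝ) :
    Continuous (fun p : ℝ × ℝ => ∫ u in a..b, F p.1 p.2 u) := by
  apply intervalIntegral.continuous_parametric_intervalIntegral_of_continuous'
  have h : Continuous (fun v : (ℝ × ℝ) × ℝ => ((v.1.1, v.1.2, v.2) : ℝ × ℝ × ℝ)) := by fun_prop
  exact (show Continuous fun v : ℝ × ℝ × ℝ => F v.1 v.2.1 v.2.2 from hF).comp h

theorem cont2' {F : ℝ → ℝ → ℝ → ℝ} (hF : Cont3 F) (a b : ℝ) (x : ℝ) :
    Continuous (fun y : ℝ => ∫ u in a..b, F x y u) := by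
  have h : Continuous (fun y : ℝ => ((x, y) : ℝ × ℝ)) := by fun_prop
  exact (cont2 hF a b).comp h

theorem cont3' {F : ℝ → ℝ → ℝ → ℝ} (hF : Cont3 F) (a b c d : ℝ) :
    Continuous (fun x : ℝ => ∫ y in c..d, ∫ u in a..b, F x y u) := by
  apply intervalIntegral.continuous_parametric_intervalIntegral_of_continuous'
  exact cont2 hF a b

theorem av_add {F G : ℝ → ℝ → ℝ → ℝ} (hF : Cont3 F) (hG : Cont3 G) :
    av (fun x y u => F x y u + G x y u) = av F + av G := by
  unfold av
  rw [← mul_add]
  congr 1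
  have h1 : ∀ x y, ∫ u in (0 : ℝ)..(2 * Real.pi), (F x y u + G x y u) =
      (∫ u in (0 : ℝ)..(2 * Real.pi), F x y u) + ∫ u in (0 : ℝ)..(2 * Real.pi), G x y u := by
    intro x y
    exact intervalIntegral.integral_add ((cont1 hF x y).intervalIntegrable _ _)
      ((cont1 hG x y).intervalIntegrable _ _)
  have h2 : ∀ x, ∫ y in (0 : ℝ)..(2 * Real.pi), ∫ u in (0 : ℝ)..(2 * Real.pi),
      (F x y u + G x y u) =
      (∫ y in (0 : ℝ)..(2 * Real.pi), ∫ u in (0 : ℝ)..(2 * Real.pi), F x y u) +
      ∫ y in (0 : ℝ)..(2 * Real.pi), ∫ u in (0 : ℝ)..(2 * Real.pi), G x y u := by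
    intro x
    simp_rw [h1]
    exact intervalIntegral.integral_add ((cont2' hF _ _ x).intervalIntegrable _ _)
      ((cont2' hG _ _ x).intervalIntegrable _ _)
  simp_rw [h2]
  exact intervalIntegral.integral_add ((cont3' hF _ _ _ _).intervalIntegrable _ _)
    ((cont3' hG _ _ _ _).intervalIntegrable _ _)

theorem av_const (c : ℝ) : av (fun _ _ _ => c) = c := by
  unfold av
  simp only [intervalIntegral.integral_const, smul_eq_mul, sub_zero]
  have h : (2 * Real.pi) ≠ 0 := by positivity
  field_simp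

theorem av_mono {F G : ℝ → ℝ → ℝ → ℝ} (hF : Cont3 F) (hG : Cont3 G)
    (h : ∀ x y u, F x y u ≤ G x y u) : av F ≤ av G := by
  unfold av
  have hp : (0 : ℝ) ≤ 2 * Real.pi := by positivity
  apply mul_le_mul_of_nonneg_left _ (by positivity)
  apply intervalIntegral.integral_mono_on hp ((cont3' hF _ _ _ _).intervalIntegrable _ _)
    ((cont3' hG _ _ _ _).intervalIntegrable _ _)
  intro x _
  apply intervalIntegral.integral_mono_on hp ((cont2' hF _ _ x).intervalIntegrable _ _)
    ((cont2' hG _ _ x).intervalIntegrable _ _)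
  intro y _
  apply intervalIntegral.integral_mono_on hp ((cont1 hF x y).intervalIntegrable _ _)
    ((cont1 hG x y).intervalIntegrable _ _)
  intro u _
  exact h x y u

theorem av_pos {F : ℝ → ℝ → ℝ → ℝ} (hF : Cont3 F) (h : ∀ x y u, 0 < F x y u) : 0 < av F := by
  unfold av
  have hp : (0 : ℝ) < 2 * Real.pi := by positivity
  apply mul_pos (by positivity)
  apply intervalIntegral.intervalIntegral_pos_of_pos ((cont3' hF _ _ _ _).intervalIntegrable _ _)
    _ hp
  intro x
  apply intervalIntegral.intervalIntegral_pos_of_pos ((cont2' hF _ _ x).intervalIntegrable _ _)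
    _ hp
  intro y
  exact intervalIntegral.intervalIntegral_pos_of_pos ((cont1 hF x y).intervalIntegrable _ _)
    (h x y) hp

theorem cont3_const (c : ℝ) : Cont3 (fun _ _ _ => c) := continuous_const

theorem cont3_add {F G : ℝ → ℝ → ℝ → ℝ} (hF : Cont3 F) (hG : Cont3 G) :
    Cont3 (fun x y u => F x y u + G x y u) :=
  (show Continuous fun v : ℝ × ℝ × ℝ => F v.1 v.2.1 v.2.2 from hF).add
    (show Continuous fun v : ℝ × ℝ × ℝ => G v.1 v.2.1 v.2.2 from hG)

theorem avb : S_AVB := by
  refine ⟨av_const, ?_, fun F G hF hG h => av_mono hF hG h, fun F hF h => av_pos hF h, ?_⟩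
  · intro F c
    unfold av
    simp only [intervalIntegral.integral_const_mul]
    ring
  · intro F G ε hF hG h
    have h1 : av F ≤ av G + ε := by
      have h2 := av_mono hF (cont3_add hG (cont3_const ε)) (fun x y u => by
        have := abs_le.1 (h x y u)
        linarith [this.2])
      rwa [av_add hG (cont3_const ε), av_const] at h2
    have h3 : av G ≤ av F + ε := by
      have h2 := av_mono hG (cont3_add hF (cont3_const ε)) (fun x y u => by
        have := abs_le.1 (h x y u)
        linarith [this.1])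
      rwa [av_add hF (cont3_const ε), av_const] at h2
    rw [abs_le]
    constructor <;> linarith

end Pool.Agent.Helper46.AB
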