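import Pool.Agent.Helper15.AB.GoalsD

/-! Packet NEQ of project AB (helper15, helper24), proved by helper46. -/

open MeasureTheory Set Filter Topology
open scoped ContDiff

noncomputable section

namespace Pool.Agent.Helper46.AB

open Pool.Agent.Helper15.AB Pool.Agent.Helper24.AB

/-- the linear part of `gE` -/
def gL0 : V4 →ₗ[ℝ] V4 where
  toFun P := ![2 * P 0 + P 1, P 0 + P 1, P 2, P 3]
  map_add' P Q := by
    funext i
    fin_cases i
    · simp
      ring
    · simp
      ring
    · simp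
    · simp
  map_smul' c P := by
    funext i
    fin_cases i
    · simp
      try ring
    · simp
      try ring
    · simp
    · simp

/-- the linear part of `gE` -/
def gL : V4 →L[ℝ] V4 := LinearMap.toContinuousLinearMap gL0

theorem gL_apply (P : V4) : gL P = ![2 * P 0 + P 1, P 0 + P 1, P 2, P 3] := rfl

theorem gE_eq (P : V4) : gE P = gL P + ![0, 0, 0, 2 * Real.pi * Complex.I] := by
  rw [gL_apply]
  funext i
  fin_cases i <;> simp [gE]

theorem gE_hasFDeriv (P : V4) : HasFDerivAt (fun P : V4 => gE P) gL P := by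
  have h : (fun P : V4 => gE P) = fun P => gL P + ![0, 0, 0, 2 * Real.pi * Complex.I] := by
    funext P
    exact gE_eq P
  rw [h]
  exact gL.hasFDerivAt.add_const _

theorem ph_sq : ph ^ 2 = ph + 1 := by
  unfold ph
  have h : Real.sqrt 5 ^ 2 = 5 := Real.sq_sqrt (by norm_num)
  nlinarith

theorem lam_eq : lam = ph + 1 := by
  unfold lam ph
  ring

theorem lam_pos : 0 < lam := by
  unfold lam
  positivity

theorem gL_eP : gL eP = lam • eP := by
  have h1 : (lam : ℂ) = (ph : ℂ) + 1 := by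
    rw [lam_eq]
    push_cast
    ring
  have h2 : (ph : ℂ) ^ 2 = (ph : ℂ) + 1 := by
    rw [← Complex.ofReal_pow, ph_sq]
    push_cast
    ring
  rw [gL_apply]
  funext i
  fin_cases i
  · show 2 * (ph : ℂ) + 1 = lam • (ph : ℂ)
    rw [Complex.real_smul, h1]
    linear_combination -h2
  · show (ph : ℂ) + 1 = lam • (1 : ℂ)
    rw [Complex.real_smul, h1]
    ring
  · show (0 : ℂ) = lam • (0 : ℂ)
    simp
  · show (0 : ℂ) = lam • (0 : ℂ)
    simp

theorem tE_eq (k : Fin 3 → ℤ) (P : V4) : tE k P = P + ![2 * Real.pi * Complex.I * k 0,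
    2 * Real.pi * Complex.I * k 1, 2 * Real.pi * Complex.I * k 2, 0] := by
  funext i
  fin_cases i <;> simp [tE]

/-- `fderiv R` is invariant under the translations -/
theorem fderiv_tE {U : Set V4} {R : V4 → ℝ} (hU : IsOpen U)
    (hR : ∀ P ∈ U, ∀ k, R (tE k P) = R P) {P : V4} (hP : P ∈ U) (k : Fin 3 → ℤ) :
    fderiv ℝ R (tE k P) = fderiv ℝ R P := by
  have h1 : (fun Z => R (Z + ![2 * Real.pi * Complex.I * k 0,
      2 * Real.pi * Complex.I * k 1, 2 * Real.pi * Complex.I * k 2, 0])) =ᶠ[𝓝 P] R := by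
    filter_upwards [hU.mem_nhds hP] with Z hZ
    rw [← tE_eq]
    exact hR Z hZ k
  rw [← h1.fderiv_eq, fderiv_comp_add_right, tE_eq]

/-- `fderiv R` under `gE` -/
theorem fderiv_gE {U : Set V4} {R : V4 → ℝ} (hU : IsOpen U)
    (hR : ∀ P ∈ U, R (gE P) = R P) (hd : ∀ P ∈ U, DifferentiableAt ℝ R P)
    (hm : ∀ P ∈ U, gE P ∈ U) {P : V4} (hP : P ∈ U) :
    fderiv ℝ R P eP = lam * fderiv ℝ R (gE P) eP := by
  have h1 : (fun Z => R (gE Z)) =ᶠ[𝓝 P] R := by
    filter_upwards [hU.mem_nhds hP] with Z hZ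
    exact hR Z hZ
  have h2 : HasFDerivAt (fun Z => R (gE Z)) ((fderiv ℝ R (gE P)).comp gL) P :=
    (hd _ (hm P hP)).hasFDerivAt.comp P (gE_hasFDeriv P)
  rw [← h1.fderiv_eq, h2.fderiv, ContinuousLinearMap.comp_apply, gL_eP, map_smul, smul_eq_mul]

theorem continuous_zP (z w : ℂ) : Continuous (fun v : ℝ × ℝ × ℝ => zP z v.1 v.2.1 v.2.2 w) := by
  apply continuous_pi
  intro i
  fin_cases i
  · simp only [zP, Fin.zero_eta, Matrix.cons_val_zero]
    fun_prop
  · simp only [zP, Fin.mk_one, Matrix.cons_val_one, Matrix.cons_val_zero]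
    fun_prop
  · simp only [zP]
    have : Continuous fun a : ℝ × ℝ × ℝ => Complex.I * (a.2.2 : ℂ) := by fun_prop
    exact this
  · simp only [zP]
    exact continuous_const

theorem neq (hPER : S_PER) (hAVT : S_AVT) (hAVB : S_AVB) : S_NEQ := by
  intro ee a q m W U R hD w hw
  obtain ⟨p1, p2, p3, p4⟩ := hPER
  have hw' : w + 2 * Real.pi * Complex.I ∈ strip (a / 2) := by
    have : (w + 2 * Real.pi * Complex.I).re = w.re := by simp
    show |(w + 2 * Real.pi * Complex.I).re| < a / 2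
    rw [this]
    exact hw
  set w' := w + 2 * Real.pi * Complex.I with hw'def
  have hd : ∀ P ∈ U, DifferentiableAt ℝ R P := fun P hP =>
    (hD.smooth.contDiffAt (hD.openU.mem_nhds hP)).differentiableAt (by simp)
  have hU' : ∀ x y u : ℝ, zP (q w') x y u w' ∈ U := fun x y u =>
    hD.topU w' hw' _ x y u (by simp)
  have hU : ∀ x y u : ℝ, zP (q w) x y u w ∈ U := fun x y u =>
    hD.topU w hw _ x y u (by simp)
  have hpos' : ∀ x y u : ℝ, 0 < fderiv ℝ R (zP (q w') x y u w') eP := fun x y u =>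
    hD.top1 w' hw' _ x y u (by simp)
  have hpos : ∀ x y u : ℝ, 0 < fderiv ℝ R (zP (q w) x y u w) eP := fun x y u =>
    hD.top1 w hw _ x y u (by simp)
  set H : ℝ → ℝ → ℝ → ℝ := fun x y u => (fderiv ℝ R (zP (q w') x y u w') eP) ^ ee with hH
  have hc : Cont3 H := by
    have h1 : ContinuousOn (fderiv ℝ R) U :=
      (hD.smooth.continuousOn_fderiv_of_isOpen hD.openU (by simp))
    have h2 : Continuous (fun v : ℝ × ℝ × ℝ => fderiv ℝ R (zP (q w') v.1 v.2.1 v.2.2 w')) :=
      h1.comp_continuous (continuous_zP _ _) (fun v => hU' v.1 v.2.1 v.2.2)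
    have h3 : Continuous (fun v : ℝ × ℝ × ℝ => fderiv ℝ R (zP (q w') v.1 v.2.1 v.2.2 w') eP) :=
      h2.clm_apply continuous_const
    exact h3.rpow_const (fun v => Or.inl (hpos' v.1 v.2.1 v.2.2).ne')
  have hper : Per3 H := by
    intro x y u
    refine ⟨?_, ?_, ?_⟩
    · have h1 := p2 (q w') x y u w' ![1, 0, 0]
      simp only [Matrix.cons_val_zero, Matrix.cons_val_one, Matrix.cons_val, Int.cast_one,
        Int.cast_zero, mul_one, mul_zero, add_zero] at h1
      simp only [hH]
      rw [← h1, fderiv_tE hD.openU hD.R_t (hU' x y u)]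
    · have h1 := p2 (q w') x y u w' ![0, 1, 0]
      simp only [Matrix.cons_val_zero, Matrix.cons_val_one, Matrix.cons_val, Int.cast_one,
        Int.cast_zero, mul_one, mul_zero, add_zero] at h1
      simp only [hH]
      rw [← h1, fderiv_tE hD.openU hD.R_t (hU' x y u)]
    · have h1 := p2 (q w') x y u w' ![0, 0, 1]
      simp only [Matrix.cons_val_zero, Matrix.cons_val_one, Matrix.cons_val, Int.cast_one,
        Int.cast_zero, mul_one, mul_zero, add_zero] at h1
      simp only [hH]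
      rw [← h1, fderiv_tE hD.openU hD.R_t (hU' x y u)]
  have h1 : Nf ee q R w' = av H := rfl
  rw [h1, ← (hAVT H hc hper).2]
  have h2 : ∀ x y u : ℝ, H (2 * x + y) (x + y) u =
      lam ^ (-ee) * (fderiv ℝ R (zP (q w) x y u w) eP) ^ ee := by
    intro x y u
    have h3 : zP (q w') (2 * x + y) (x + y) u w' = gE (zP (q w) x y u w) := by
      rw [p1]
      have h4 : ((q w' : ℝ) : ℂ) = (lam : ℂ) * (q w : ℂ) := by
        rw [hw'def, hD.q_per w hw]
        push_cast
        ring
      rw [h4]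
    have h5 := fderiv_gE hD.openU hD.R_g hd (fun P hP => (hD.mapU P hP).1) (hU x y u)
    have h6 : 0 < fderiv ℝ R (gE (zP (q w) x y u w)) eP := by
      rw [← h3]
      exact hpos' _ _ _
    simp only [hH]
    rw [h3, h5, Real.mul_rpow lam_pos.le h6.le, ← mul_assoc, ← Real.rpow_add lam_pos]
    simp
  have h7 : (fun x y u => H (2 * x + y) (x + y) u) = fun x y u =>
      lam ^ (-ee) * (fderiv ℝ R (zP (q w) x y u w) eP) ^ ee := by
    funext x y u
    exact h2 x y u
  rw [h7]
  exact hAVB.2.1 (fun x y u => (fderiv ℝ R (zP (q w) x y u w) eP) ^ ee) (lam ^ (-ee))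

end Pool.Agent.Helper46.AB
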